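import Mathlib
import Pool.Agent.W811.LW.Asm

set_option autoImplicit false
open Filter Topology

namespace Pool.Agent.W811.LW.Variants.SparseLevels

/-- For every `ε > 0` there are reals `ξ, ζ` and a sequence `Q_k → ∞` with
`log Q_{k+1} / log Q_k → 1 + ε` such that `Q_k · m_{ξ,ζ}(Q_k)` is bounded below by a positive
constant. -/
theorem result : ∀ ε : ℝ, 0 < ε → ∃ ξ ζ : ℝ, ∃ Q : ℕ → ℝ,
    Tendsto Q atTop atTop ∧
    Tendsto (fun k => Real.log (Q (k + 1)) / Real.log (Q k)) atTop (𝓝 (1 + ε)) ∧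
    ∃ c : ℝ, 0 < c ∧ ∀ k, c ≤ Q k * ⨅ q : {q : ℕ // 0 < q ∧ (q : ℝ) ≤ Q k},
      |((q.1 : ℝ) * ξ) - (round ((q.1 : ℝ) * ξ) : ℝ)| *
      |((q.1 : ℝ) * ζ) - (round ((q.1 : ℝ) * ζ) : ℝ)| :=
  Pool.Agent.W811.LW.tLAST

end Pool.Agent.W811.LW.Variants.SparseLevels
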